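import Pool.Agent.Helper156_SP.Carry

set_option autoImplicit false

/-!
# MP_21f43f_nt: the moments of zeta are carried by the neighbourhoods of long gaps between the zeros, without clusters

Let `p > 0`, `0 < ε < 1` and `A ≥ 0` be real.  For a point `t` let `L = log t`, so that `2π / L` is the mean spacing of the
zeros near `t`.  A point `u` is `Good` for `t` if

* no zero of zeta on the critical line has ordinate in `[u - h, u + h]`, `h = (1 - ε) π / L` (under the Riemann hypothesis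
  this interval lies in a gap of normalised length at least `1 - ε - o(1)`), and `|ζ(1/2 + is)| ≥ c |ζ(1/2 + it)|` there;
* for every `0 < r ≤ L / 2` the zeros `ρ` of zeta, on or off the line, with `|ρ - 1/2 - iu| ≤ r / L` satisfy
  `∑ m(ρ) log (r / (L |ρ - 1/2 - iu|)) ≤ (1 + ε) r / π`, `m(ρ)` the multiplicity; for equidistant zeros with spacing
  `2π / L` and `u` halfway between two of them the sum is asymptotic to `r / π`.

Theorem: for all large `T` and all `1 ≤ K ≤ log T`, the points `t` of `[2, T]` with no `Good` point within `K / log T` carry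
at most the proportion `C K^(-A)` of the moment `∫_0^(T+W) |ζ(1/2 + it)|^p dt`.  The constants depend on `p, ε, A` only.
-/

open MeasureTheory

namespace Pool.Agent.Results.MP_21f43f_nt.MomentsNearLongGaps

/-- `u` is the centre of a zero-free interval of the length `(1 - ε) 2π / log t` on which `|ζ| ≥ c |ζ(1/2 + it)|`, and the
zeros of zeta near `1/2 + iu` are at most as dense as on average, in the logarithmic mean. -/
def Good (ε c t u : ℝ) : Prop :=
  (∀ s : ℝ, |s - u| * Real.log t ≤ (1 - ε) * Real.pi → riemannZeta (1 / 2 + s * Complex.I) ≠ 0 ∧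
    c * ‖riemannZeta (1 / 2 + t * Complex.I)‖ ≤ ‖riemannZeta (1 / 2 + s * Complex.I)‖) ∧
  ∀ r : ℝ, 0 < r → r ≤ Real.log t / 2 → ∀ Z : Finset ℂ,
    (∀ ρ ∈ Z, ‖ρ - (1 / 2 + u * Complex.I)‖ ≤ r / Real.log t) →
    ∑ ρ ∈ Z, (analyticOrderNatAt riemannZeta ρ : ℝ) *
      Real.log (r / (Real.log t * ‖ρ - (1 / 2 + u * Complex.I)‖)) ≤ (1 + ε) * r / Real.pi

theorem result (p ε A : ℝ) (hp : 0 < p) (hε : 0 < ε) (hε1 : ε < 1) (hA : 0 ≤ A) :
    ∃ c C W T₀ : ℝ, 0 < c ∧ 0 < C ∧ 0 < W ∧ ∀ T : ℝ, T₀ ≤ T → ∀ K : ℝ, 1 ≤ K → K ≤ Real.log T →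
      ∀ E : Set ℝ, MeasurableSet E → E ⊆ Set.Icc 2 T →
      (∀ t ∈ E, ∀ u : ℝ, |u - t| ≤ K / Real.log T → ¬ Good ε c t u) →
      ∫ t in E, ‖riemannZeta (1 / 2 + t * Complex.I)‖ ^ p ≤
        C * K ^ (-A) * ∫ t in (0:ℝ)..(T + W), ‖riemannZeta (1 / 2 + t * Complex.I)‖ ^ p := by
  obtain ⟨c, C, W, T₀, hc, hC, hW, h⟩ := Pool.Agent.Helper156_SP.carried hp hε hε1 hA
  refine ⟨c, C, W, T₀, hc, hC, hW, fun T hT K hK hKT E hE hET hbad => ?_⟩
  refine h T hT K hK hKT E hE hET fun t ht => ?_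
  rintro ⟨u, hu, hfew, hpl⟩
  exact hbad t ht u hu ⟨hpl, hfew⟩

end Pool.Agent.Results.MP_21f43f_nt.MomentsNearLongGaps
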