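import Pool.Agent.Helper647_SG.Pat2

/-!
# Words of signs and of parities along progressions: no pattern is frequent

Let `N[a, b)` be the number of zeros of zeta in the critical strip with ordinate in `[a, b)`,
counted with multiplicity (on the Riemann hypothesis these are the `γ_n` in `[a, b)`), let `Z` be
Hardy's function, and let `m = min (1, δ log T)`, so that a progression of `J` steps of width `δ`
has length about `J m` in units of the mean spacing as long as `δ` is at most about the mean
spacing.  Unconditionally there is an absolute constant `C` such that for all `A ≥ 1`,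
`0 < p ≤ 1`, `J`, all `T ≥ T₀(A, p, J)` and ALL `0 < δ ≤ A` with `J m ≥ e^(C/p)`:

* for every prescribed word of signs `η_0, …, η_(J-1)` the set of the `t` in `[T, 2T]` for which
  `Z(t + jδ)` has the sign `η_j` for all but at most `e^(-C/p) J m` of the `j < J` has measure at
  most `p T`;
* for every prescribed word `e_0, …, e_(J-1)` the set of the `t` in `[T, 2T]` for which
  `N[t + jδ, t + (j+1)δ)` has the parity of `e_j` for all but at most `e^(-C/p) J m` of the `j < J`
  has measure at most `p T`.

In particular a word is met exactly only on a set of measure at most `C T / log (J m)`.  So in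
every limit of the point process of the zeros at the scale of the mean spacing the law of the
parities in the cells of a progression has no atoms, and this is stable: no Hamming ball of small
radius around any word has large measure.

Idea of the proof.  Let `X = Z |B|²`, `B` Selberg's mollifier.  (1) The sums
`∑_j X(u + jδ) φ(j / J)` have second moment `O(J^(3/2) T)` (Poisson summation, and an upper bound
for the mass of `X` at the frequencies near the multiples of `2π/δ`).  (2)
`|{t : |X(t)| < κ}| = O(T / log (1/κ))`, by the Poisson–Jensen inequality in the half plane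
`Re s ≥ 1/2` for `(s-1)/(s+1) ζ(s) B(s)²` and the second moment of `X`.  (1) and (2) show that the
signs of `Z` along a progression are constant for `J` steps only on a set of measure
`O(T / log J)`.  (3) If a word is frequent, two of its first `1/p` translates overlap, so that it
is nearly periodic with period at most `1/p`, and `Z` has few changes of sign along a progression
of a larger step, whose length is still a multiple of `p J`.
-/

open Filter Topology Complex MeasureTheory Set

namespace Pool.Agent.Results.MP_21f43f_nt.ParityPatterns

/-- the zeros of zeta in the critical strip with ordinate in `[a, b)` -/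
def zeros (a b : ℝ) : Set ℂ :=
  {s : ℂ | 0 < s.re ∧ s.re < 1 ∧ a ≤ s.im ∧ s.im < b ∧ riemannZeta s = 0}

/-- `N[a, b)`, the number of these zeros, with multiplicity -/
noncomputable def count (a b : ℝ) : ℕ := ∑ᶠ s ∈ zeros a b, analyticOrderNatAt riemannZeta s

/-- the phase `exp (i ϑ(t))`, with `ϑ(t) = arg Γ(1/4 + i t / 2) - (t / 2) log π` -/
noncomputable def phase (t : ℝ) : ℂ :=
  Gamma (1 / 4 + I * t / 2) / ‖Gamma (1 / 4 + I * t / 2)‖ * cexp (-(I * (t / 2) * Real.log Real.pi))

/-- Hardy's function `Z(t) = exp (i ϑ(t)) ζ(1/2 + i t)`; the theorem contains the proof that this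
number is real -/
noncomputable def Z (t : ℝ) : ℝ := (phase t * riemannZeta (1 / 2 + I * t)).re

/-- **The theorem.** -/
theorem result :
    -- Hardy's function is real, and the sets of zeros that are counted are finite
    (∀ t : ℝ, ((Z t : ℝ) : ℂ) = phase t * riemannZeta (1 / 2 + I * t)) ∧
    (∀ a b : ℝ, 2 ≤ a → (zeros a b).Finite) ∧
    -- words close to a fixed word
    (∃ C : ℝ, 0 < C ∧ ∀ (A p : ℝ) (J : ℕ), 1 ≤ A → 0 < p → p ≤ 1 →
      ∃ T₀ : ℝ, ∀ T δ : ℝ, T₀ ≤ T → 0 < δ → δ ≤ A →
        Real.exp (C / p) ≤ J * min 1 (δ * Real.log T) →
      (∀ η : ℕ → ℝ, volume.real {t : ℝ | t ∈ Icc T (2 * T) ∧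
          ({j : ℕ | j < J ∧ η j * Z (t + j * δ) ≤ 0}.ncard : ℝ) ≤
            Real.exp (-(C / p)) * (J * min 1 (δ * Real.log T))} ≤ p * T) ∧
      (∀ e : ℕ → ℕ, volume.real {t : ℝ | t ∈ Icc T (2 * T) ∧
          ({j : ℕ | j < J ∧ ¬ count (t + j * δ) (t + (j + 1) * δ) ≡ e j [MOD 2]}.ncard : ℝ) ≤
            Real.exp (-(C / p)) * (J * min 1 (δ * Real.log T))} ≤ p * T)) :=
  ⟨R304.SG.Z_re, fun _ b ha => Helper647.SG.zs_fin ha b, Helper647.SG.rob2⟩

end Pool.Agent.Results.MP_21f43f_nt.ParityPatterns
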