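import Pool.Agent.H792_Atoms.Runs

/-!
# Long runs of gaps near the mean

On the Riemann hypothesis the share of the indices that start a long run of normalised gaps of the
zeta zeros close to `1` is at most any number above `1 - 2 / π²`.
-/

open Filter Set

namespace Pool.Agent.Results.MP_21f43f_nt.RunsNearMean

/-- multiplicity of `s` as a zero of the Riemann zeta function (order of vanishing at `s`) -/
noncomputable def zmult (s : ℂ) : ℕ := analyticOrderNatAt riemannZeta s

/-- the number of nontrivial zeros of `ζ` with ordinate in `(0, t]`, with multiplicity -/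
noncomputable def NZ (t : ℝ) : ℕ :=
  ∑ᶠ s ∈ {s : ℂ | riemannZeta s = 0 ∧ 0 < s.re ∧ s.re < 1 ∧ 0 < s.im ∧ s.im ≤ t}, zmult s

/-- for `n ≥ 1`: the `n`-th positive ordinate `γ n` of a nontrivial zero of `ζ`, the ordinates being
listed in nondecreasing order and repeated according to multiplicity -/
noncomputable def γ (n : ℕ) : ℝ := sInf {t : ℝ | n ≤ NZ t}

/-- the normalised gaps `δ n = (γ (n+1) log γ (n+1) - γ n log γ n) / 2π` -/
noncomputable def δ (n : ℕ) : ℝ :=
  (γ (n + 1) * Real.log (γ (n + 1)) - γ n * Real.log (γ n)) / (2 * Real.pi)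

/-- On the Riemann hypothesis, for every `q > 1 - 2 / π²` there are a length `m` and an `ε > 0` such
that, for all large `N`, at most `q N` of the indices `n ≤ N` are followed by `m` gaps
`δ n, δ (n+1), …, δ (n+m-1)` that are all within `ε` of `1`. -/
theorem result (RH : RiemannHypothesis) (q : ℝ) (hq : 1 - 2 / Real.pi ^ 2 < q) :
    ∃ m : ℕ, ∃ ε : ℝ, 0 < ε ∧ ∀ᶠ N : ℕ in atTop,
      ({n : ℕ | 1 ≤ n ∧ n ≤ N ∧ ∀ i, i < m → |δ (n + i) - 1| ≤ ε}.ncard : ℝ) ≤ q * N :=
  Pool.Agent.H792_Atoms.runs RH hq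

end Pool.Agent.Results.MP_21f43f_nt.RunsNearMean
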