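import Pool.Agent.H707.SM.Fin

/-!
# The second moment of the normalised gaps of the zeta zeros (under RH)

Let `N_x` be the number of zeros in a window of `x` mean spacings.  For integers `q` one has
`(N_x - q) (N_x - q - 1) ≥ 0`, with the value `q (q + 1)` if the window is empty.  The mean of `N_x²`
is the pair sum of the tent `(x - |u|)₊`.  For `x = m + 1/2` we majorise the tent by its Hermite
interpolant at the integers, a function of exponential type `2π` whose pair sum is given by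
Montgomery's theorem; the proof that it is a majorant is elementary
(`Pool.Agent.H707.SM.tent_le`).  With `q = m` this gives the first part of the theorem, and the
trapezoidal rule gives the second moment.
-/

open Filter

namespace Pool.Agent.Results.MP_21f43f_nt.SecondMoment

/-- multiplicity of `s` as a zero of the Riemann zeta function (order of vanishing at `s`) -/
noncomputable def zmult (s : ℂ) : ℕ := analyticOrderNatAt riemannZeta s

/-- the number of nontrivial zeros of `ζ` with ordinate in `(0, t]`, with multiplicity -/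
noncomputable def NZ (t : ℝ) : ℕ :=
  ∑ᶠ s ∈ {s : ℂ | riemannZeta s = 0 ∧ 0 < s.re ∧ s.re < 1 ∧ 0 < s.im ∧ s.im ≤ t}, zmult s

/-- for `n ≥ 1`: the `n`-th positive ordinate `γ n` of a nontrivial zero of `ζ`, the ordinates being
listed in nondecreasing order and repeated according to multiplicity -/
noncomputable def γ (n : ℕ) : ℝ := sInf {t : ℝ | n ≤ NZ t}

/-- the normalised gaps `δ_n = (γ_{n+1} log γ_{n+1} - γ_n log γ_n) / 2π` -/
noncomputable def δ (n : ℕ) : ℝ :=
  (γ (n + 1) * Real.log (γ (n + 1)) - γ n * Real.log (γ n)) / (2 * Real.pi)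

/-- `J_m = (m + 1/2) / 3 - ((2m+1) / π²) ∑_{k ≤ m} 1/k² + (1 / π²) ∑_{k ≤ m} 1/k` -/
noncomputable def J (m : ℕ) : ℝ :=
  ((m : ℝ) + 1 / 2) / 3 - (2 * m + 1) / Real.pi ^ 2 * ∑ k ∈ Finset.range m, 1 / ((k : ℝ) + 1) ^ 2 +
    1 / Real.pi ^ 2 * ∑ k ∈ Finset.range m, 1 / ((k : ℝ) + 1)

/-- On the Riemann hypothesis: (1) for all large `N` the mean square of the normalised gaps
`δ_1, …, δ_N` of the zeta zeros lies between `1.04` and `1.945`; (2) for every `m ≥ 1` and `ε > 0`
the mean of `max (0, δ_n - (m + 1/2))` over `n ≤ N` is at most `J_m / (m (m + 1)) + ε` for all large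
`N`, where (3) `J_m ≤ (2 + ∑_{k ≤ m} 1/k) / π²`. -/
theorem result (RH : RiemannHypothesis) :
    (∀ᶠ N : ℕ in atTop, 1.04 ≤ (1 / N : ℝ) * ∑ n ∈ Finset.Icc 1 N, (δ n) ^ 2 ∧
      (1 / N : ℝ) * ∑ n ∈ Finset.Icc 1 N, (δ n) ^ 2 ≤ 1.945) ∧
    (∀ m : ℕ, 1 ≤ m → ∀ ε : ℝ, 0 < ε → ∀ᶠ N : ℕ in atTop,
      (1 / N : ℝ) * ∑ n ∈ Finset.Icc 1 N, max 0 (δ n - ((m : ℝ) + 1 / 2)) ≤
        J m / ((m : ℝ) * (m + 1)) + ε) ∧
    (∀ m : ℕ, J m ≤ (2 + ∑ k ∈ Finset.range m, 1 / ((k : ℝ) + 1)) / Real.pi ^ 2) := by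
  have hδ : ∀ n, LG.dlt n = δ n := fun n => rfl
  refine ⟨?_, fun m hm ε hε => ?_, fun m => Pool.Agent.H707.SM.Jm_le m⟩
  · filter_upwards [Pool.Agent.H707.SM.lower RH, Pool.Agent.H707.SM.upper RH,
      eventually_gt_atTop 0] with N h1 h2 hN
    have hNpos : (0 : ℝ) < N := by exact_mod_cast hN
    simp only [hδ] at h1 h2
    rw [one_div, inv_mul_eq_div]
    exact ⟨(le_div_iff₀ hNpos).2 h1, (div_le_iff₀ hNpos).2 h2⟩
  · filter_upwards [Pool.Agent.H707.SM.pos_mean RH hm hε, eventually_gt_atTop 0] with N h1 hN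
    have hNpos : (0 : ℝ) < N := by exact_mod_cast hN
    simp only [hδ] at h1
    rw [one_div, inv_mul_eq_div]
    exact (div_le_iff₀ hNpos).2 h1

end Pool.Agent.Results.MP_21f43f_nt.SecondMoment
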